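import Pool.Agent.H12P.Stm

/-!
# Project LP (helper11): prime values at prime arguments, the low scales

Companion of `H11B.lowT` (all integers `n`) for the primes `q`, `(log H)^(m+δ) ≤ N ≤ (log H)^A`.
-/

set_option autoImplicit false

namespace Pool.Agent.H11C

open Finset
open Pool.Agent.H373R2.T7 (lamz pz Vz)
open Pool.Agent.H13K Pool.Agent.H12P

/-- **SMQ** (helper12): `S_SMP` for small `N`. -/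
def S_SMQ : Prop := ∀ (m : ℕ) (dd : Fin m → ℕ) (A C : ℕ) (δ : ℝ), 0 < δ → (∀ i, 1 ≤ dd i) → ∃ H0 : ℕ, ∀ H : ℕ, H0 ≤ H →
  ∀ z : ℕ, 3 ≤ z → (z : ℝ) ≤ Real.log H → ∀ N : ℕ, Real.log H ^ (1 + δ) ≤ N → (N : ℝ) ≤ Real.log H ^ C →
  ∑ a ∈ bx dd H, (∑ n ∈ Icc 1 N, (th z n * sf z a (n : ℤ) - C1 z a)) ^ 2 ≤
    ((bx dd H).card : ℝ) * (N : ℝ) ^ 2 / Real.log N ^ A

/-- **PYQ**: `S_PYP` without the condition `(log H)^2 ≤ z`. -/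
def S_PYQ : Prop := ∀ (m : ℕ) (dd : Fin m → ℕ), (∀ i, 1 ≤ dd i) → ∃ (C : ℝ) (z0 : ℕ), 1 ≤ C ∧ ∀ H z : ℕ, z0 ≤ z →
  z ≤ H → ∃ Bad ⊆ bx dd H, (Bad.card : ℝ) ≤ C * ((bx dd H).card : ℝ) * (z : ℝ) ^ (-(1 / 4) : ℝ) ∧
  ∀ a ∈ bx dd H, a ∉ Bad → (∀ p ∈ pz z, om p a ≠ p) → ∀ Y : ℕ, z ≤ Y → Y ^ 4 ≤ H →
    |C1 Y a - C1 z a| ≤ C * (z : ℝ) ^ (-(1 / 20) : ℝ) * C1 z a

/-- **LOWP** (helper11): the low scales. -/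
def S_LOWP : Prop := ∀ (m : ℕ) (dd : Fin m → ℕ), 1 ≤ m → (∀ i, 1 ≤ dd i) → ∀ (A : ℕ) (δ ε : ℝ), 0 < δ → 0 < ε →
    ∃ z0 H0 : ℕ, ∀ H : ℕ, H0 ≤ H → ∃ Bad ⊆ bx dd H, (Bad.card : ℝ) ≤ ε * (bx dd H).card ∧
    ∀ a ∈ bx dd H, a ∉ Bad → (∀ p : ℕ, p.Prime → om1 p a ≠ p - 1) → ∀ z : ℕ, z0 ≤ z → z ^ 4 ≤ H → 0 < C1 z a ∧
      ∀ N : ℕ, Real.log H ^ ((m : ℝ) + δ) ≤ N → (N : ℝ) ≤ Real.log H ^ A →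
        |P1 a N - C1 z a * L1 a N| ≤ ε * (C1 z a * L1 a N)

end Pool.Agent.H11C
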